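import Pool.Agent.W275.CP.Stm

set_option autoImplicit false

namespace Pool.Agent.W52.CP.Cong

open Finset hiding val
open Pool.Agent.W275.CP

theorem cong : S_cong := by
  intro j x q hj hq h
  have hx : 0 < x := by
    rcases Nat.eq_zero_or_pos x with h0 | h0
    · subst h0
      simp at h
    · exact h0
  have hD : ((x ^ 4 - 16 * j ^ 2 * q ^ 4 : ℕ) : ℚ) = (x : ℚ) ^ 4 - 16 * (j : ℚ) ^ 2 * (q : ℚ) ^ 4 := by
    rw [Nat.cast_sub h.le]
    push_cast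
    ring
  have hDpos : (0 : ℚ) < (x : ℚ) ^ 4 - 16 * (j : ℚ) ^ 2 * (q : ℚ) ^ 4 := by
    rw [← hD]
    exact_mod_cast Nat.sub_pos_of_lt h
  have hxq : (0 : ℚ) < x := by exact_mod_cast hx
  have hqq : (0 : ℚ) < q := by exact_mod_cast hq
  have hjq : (0 : ℚ) < j := by exact_mod_cast hj
  refine ⟨((x : ℚ) ^ 4 - 16 * (j : ℚ) ^ 2 * (q : ℚ) ^ 4) / (2 * x * q), 4 * j * x * q,
    ((x : ℚ) ^ 4 + 16 * (j : ℚ) ^ 2 * (q : ℚ) ^ 4) / (2 * x * q), by positivity, by positivity,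
    by positivity, ?_, ?_⟩
  · field_simp
    ring
  · unfold val
    rw [Nat.cast_mul, hD]
    field_simp
    ring

theorem prime_dvd_x0 (j K p : ℕ) (hp : p.Prime) (h : p ∣ x0 j K) : p ≤ K ∧ ¬ p ∣ 2 * j := by
  unfold x0 at h
  obtain ⟨r, hr, hpr⟩ := (Nat.Prime.prime hp).exists_mem_finset_dvd h
  rw [mem_filter, mem_range] at hr
  have : p = r := (Nat.prime_dvd_prime_iff_eq hp hr.2.1).1 hpr
  subst this
  exact ⟨by omega, hr.2.2⟩

theorem dvd_Q0 (K p : ℕ) (hp : p.Prime) (h : p ≤ K) : p ∣ Q0 K := by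
  unfold Q0
  exact Finset.dvd_prod_of_mem (fun p => p) (by rw [mem_filter, mem_range]; exact ⟨by omega, hp⟩)

theorem dvd_x0 (j K p : ℕ) (hp : p.Prime) (h : p ≤ K) (h2 : ¬ p ∣ 2 * j) : p ∣ x0 j K := by
  unfold x0
  exact Finset.dvd_prod_of_mem (fun p => p)
    (by rw [mem_filter, mem_range]; exact ⟨by omega, hp, h2⟩)

theorem not_dvd_xx (j K y p : ℕ) (hp : p.Prime) (h : p ≤ K) (h2 : p ∣ 2 * j) :
    ¬ p ∣ xx j K y := by
  intro h3
  unfold xx at h3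
  have h4 : p ∣ Q0 K * y := dvd_mul_of_dvd_left (dvd_Q0 K p hp h) y
  exact (prime_dvd_x0 j K p hp ((Nat.dvd_add_left h4).1 h3)).2 h2

theorem modj : S_mod := by
  intro j hj K y q hK h
  have hodd : ¬ 2 ∣ xx j K y := not_dvd_xx j K y 2 Nat.prime_two hK (dvd_mul_right 2 j)
  obtain ⟨k, hk⟩ : ∃ k, xx j K y = 2 * k + 1 := ⟨xx j K y / 2, by omega⟩
  obtain ⟨t, ht⟩ : ∃ t, k * (k + 1) = 2 * t := (Nat.even_mul_succ_self k).two_dvd
  have hx4 : xx j K y ^ 4 = 16 * (4 * t ^ 2 + t) + 1 := by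
    have h1 : xx j K y ^ 2 = 8 * t + 1 := by
      rw [hk]
      calc (2 * k + 1) ^ 2 = 4 * (k * (k + 1)) + 1 := by ring
        _ = 8 * t + 1 := by rw [ht]; ring
    calc xx j K y ^ 4 = (xx j K y ^ 2) ^ 2 := by ring
      _ = 16 * (4 * t ^ 2 + t) + 1 := by rw [h1]; ring
  unfold val
  rw [hx4] at h ⊢
  have h5 : 16 * j ^ 2 * q ^ 4 = 16 * (j ^ 2 * q ^ 4) := by ring
  rw [h5] at h ⊢
  set u := j ^ 2 * q ^ 4
  set s := 4 * t ^ 2 + t
  have h6 : 16 * s + 1 - 16 * u = 8 * (2 * (s - u)) + 1 := by omega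
  rw [h6, mul_add, mul_one]
  have h7 : j * (8 * (2 * (s - u))) = 8 * (j * (2 * (s - u))) := by ring
  rw [h7, Nat.mul_add_mod]
  have hj' : j < 8 := by
    simp only [J, mem_insert, mem_singleton] at hj
    omega
  exact Nat.mod_eq_of_lt hj'

end Pool.Agent.W52.CP.Cong
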