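import Pool.Agent.W275.CP.Stm

set_option autoImplicit false

namespace Pool.Agent.W52.CP.Quad

open Finset hiding val
open Pool.Agent.W275.CP

theorem dvd_cast {a b c : ℤ} (h : a ∣ b) (e : c = b) : a ∣ c := e ▸ h

theorem card_le_of_congr (a n m : ℕ) (S : Finset ℕ) (hS : S ⊆ Ico a (a + n))
    (h : ∀ y ∈ S, ∀ y' ∈ S, y ≡ y' [MOD m]) : S.card ≤ n / m + 1 := by
  have h1 : ∀ y ∈ S, (y - a) / m ∈ range (n / m + 1) := by
    intro y hy
    have h2 := mem_Ico.1 (hS hy)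
    rw [mem_range]
    exact Nat.lt_succ_of_le (Nat.div_le_div_right (by omega))
  have h3 : Set.InjOn (fun y => (y - a) / m) (S : Set ℕ) := by
    intro y hy y' hy' hyy
    have h4 := mem_Ico.1 (hS hy)
    have h5 := mem_Ico.1 (hS hy')
    have h6 := h y hy y' hy'
    have h7 : y - a ≡ y' - a [MOD m] := by
      apply Nat.ModEq.add_right_cancel' a
      rw [Nat.sub_add_cancel h4.1, Nat.sub_add_cancel h5.1]
      exact h6
    have h8 : y - a = y' - a := by
      rw [← Nat.div_add_mod (y - a) m, ← Nat.div_add_mod (y' - a) m, h7]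
      congr 2
    omega
  have h9 := Finset.card_le_card_of_injOn (fun y => (y - a) / m) h1 h3
  rwa [card_range] at h9

theorem lin : S_lin := by
  intro p m r a n hp hm
  apply card_le_of_congr a n p _ (filter_subset _ _)
  intro y hy y' hy'
  have h1 := (mem_filter.1 hy).2
  have h2 := (mem_filter.1 hy').2
  have h3 : r + m * y ≡ r + m * y' [MOD p] :=
    ((Nat.modEq_zero_iff_dvd).2 h1).trans ((Nat.modEq_zero_iff_dvd).2 h2).symm
  have h4 : m * y ≡ m * y' [MOD p] := Nat.ModEq.add_left_cancel' r h3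
  exact Nat.ModEq.cancel_left_of_coprime ((Nat.Prime.coprime_iff_not_dvd hp).2 hm) h4

theorem quad : S_quad := by
  intro p m r a n e hp hp2 hm he
  classical
  set F := (Ico a (a + n)).filter fun y => ((p : ℤ) ^ 2 ∣ (((r + m * y : ℕ) : ℤ)) ^ 2 - e) with hF
  have hpZ : Prime (p : ℤ) := Nat.prime_iff_prime_int.1 hp
  have hmZ : ¬ (p : ℤ) ∣ (m : ℤ) := fun h => hm (Int.natCast_dvd_natCast.1 h)
  have hcop : IsCoprime ((p : ℤ) ^ 2) (m : ℤ) :=
    IsCoprime.pow_left ((Prime.coprime_iff_not_dvd hpZ).2 hmZ)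
  rcases F.eq_empty_or_nonempty with h0 | ⟨z, hz⟩
  · rw [h0]; simp
  have hz2 := (mem_filter.1 hz).2
  have hpe : (p : ℤ) ∣ (p : ℤ) ^ 2 := dvd_pow_self _ (by norm_num)
  set F1 : Finset ℕ := F.filter fun y : ℕ => (p : ℤ) ^ 2 ∣ (y : ℤ) - z with hF1
  set F2 : Finset ℕ := F.filter fun y : ℕ => (p : ℤ) ^ 2 ∣ ((r + m * y : ℕ) : ℤ) + ((r + m * z : ℕ) : ℤ) with hF2
  have hsub : F ⊆ F1 ∪ F2 := by
    intro y hy
    have hy2 := (mem_filter.1 hy).2
    have h1 : (p : ℤ) ^ 2 ∣ (((r + m * y : ℕ) : ℤ) - ((r + m * z : ℕ) : ℤ)) *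
        (((r + m * y : ℕ) : ℤ) + ((r + m * z : ℕ) : ℤ)) := by
      exact dvd_cast (dvd_sub hy2 hz2) (by ring)
    rw [mem_union]
    by_cases hB : (p : ℤ) ∣ ((r + m * y : ℕ) : ℤ) + ((r + m * z : ℕ) : ℤ)
    · right
      rw [mem_filter]
      refine ⟨hy, ?_⟩
      have hA : ¬ (p : ℤ) ∣ ((r + m * y : ℕ) : ℤ) - ((r + m * z : ℕ) : ℤ) := by
        intro hA
        have h2 : (p : ℤ) ∣ 2 * ((r + m * z : ℕ) : ℤ) := by
          exact dvd_cast (dvd_sub hB hA) (by ring)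
        rcases hpZ.dvd_or_dvd h2 with h3 | h3
        · have h4 : p ∣ 2 := by exact_mod_cast h3
          exact hp2 ((Nat.prime_dvd_prime_iff_eq hp Nat.prime_two).1 h4)
        · apply he
          have h5 : (p : ℤ) ∣ (((r + m * z : ℕ) : ℤ)) ^ 2 := dvd_pow h3 (by norm_num)
          have h6 : (p : ℤ) ∣ (((r + m * z : ℕ) : ℤ)) ^ 2 - e := hpe.trans hz2
          exact dvd_cast (dvd_sub h5 h6) (by ring)
      have hc : IsCoprime ((p : ℤ) ^ 2) (((r + m * y : ℕ) : ℤ) - ((r + m * z : ℕ) : ℤ)) :=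
        IsCoprime.pow_left ((Prime.coprime_iff_not_dvd hpZ).2 hA)
      exact hc.dvd_of_dvd_mul_left h1
    · left
      rw [mem_filter]
      refine ⟨hy, ?_⟩
      have hc : IsCoprime ((p : ℤ) ^ 2) (((r + m * y : ℕ) : ℤ) + ((r + m * z : ℕ) : ℤ)) :=
        IsCoprime.pow_left ((Prime.coprime_iff_not_dvd hpZ).2 hB)
      have h2 := hc.dvd_of_dvd_mul_right h1
      have h3 : ((r + m * y : ℕ) : ℤ) - ((r + m * z : ℕ) : ℤ) = m * ((y : ℤ) - z) := by
        push_cast; ring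
      rw [h3] at h2
      exact hcop.dvd_of_dvd_mul_left h2
  have hc1 : F1.card ≤ n / p ^ 2 + 1 := by
    apply card_le_of_congr a n (p ^ 2)
    · exact (filter_subset _ _).trans (filter_subset _ _)
    · intro y hy y' hy'
      have h1 := (mem_filter.1 hy).2
      have h2 := (mem_filter.1 hy').2
      have h3 : ((p ^ 2 : ℕ) : ℤ) ∣ (y : ℤ) - y' := by
        push_cast
        exact dvd_cast (dvd_sub h1 h2) (by ring)
      exact ((Nat.modEq_iff_dvd).2 h3).symm
  have hc2 : F2.card ≤ n / p ^ 2 + 1 := by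
    apply card_le_of_congr a n (p ^ 2)
    · exact (filter_subset _ _).trans (filter_subset _ _)
    · intro y hy y' hy'
      have h1 := (mem_filter.1 hy).2
      have h2 := (mem_filter.1 hy').2
      have h3 : (p : ℤ) ^ 2 ∣ m * ((y : ℤ) - y') := by
        exact dvd_cast (dvd_sub h1 h2) (by push_cast; ring)
      have h4 : ((p ^ 2 : ℕ) : ℤ) ∣ (y : ℤ) - y' := by
        push_cast
        exact hcop.dvd_of_dvd_mul_left h3
      exact ((Nat.modEq_iff_dvd).2 h4).symm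
  calc F.card ≤ (F1 ∪ F2).card := card_le_card hsub
    _ ≤ F1.card + F2.card := card_union_le _ _
    _ ≤ 2 * (n / p ^ 2 + 1) := by omega

end Pool.Agent.W52.CP.Quad
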