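import Pool.Agent.W52.CP.Cong

set_option autoImplicit false

namespace Pool.Agent.W52.CP.Fac

open Finset hiding val
open Pool.Agent.W275.CP Pool.Agent.W52.CP.Cong

theorem dvd_cast {a b c : ℤ} (h : a ∣ b) (e : c = b) : a ∣ c := e ▸ h

theorem main : S_fac := by
  intro j hj K y q hK hq hcop h hsq
  have hj1 : 0 < j ∧ j ≤ 7 ∧ j ≠ 4 := by
    simp only [J, mem_insert, mem_singleton] at hj
    omega
  unfold val at hsq
  rw [Nat.squarefree_iff_prime_squarefree] at hsq
  push Not at hsq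
  obtain ⟨p, hp, hpD⟩ := hsq
  set x := xx j K y with hx
  have hDx : x ^ 4 - 16 * j ^ 2 * q ^ 4 + 16 * j ^ 2 * q ^ 4 = x ^ 4 := Nat.sub_add_cancel h.le
  set D := x ^ 4 - 16 * j ^ 2 * q ^ 4 with hD
  have hpp : p ∣ p * p := dvd_mul_right p p
  by_cases hpK : p ≤ K
  · exfalso
    by_cases h2j : p ∣ 2 * j
    · have hpx : ¬ p ∣ x := not_dvd_xx j K y p hp hpK h2j
      have h16 : p ∣ 16 * j ^ 2 * q ^ 4 := by
        have : 16 * j ^ 2 * q ^ 4 = 2 * j * (8 * j * q ^ 4) := by ring
        rw [this]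
        exact dvd_mul_of_dvd_left h2j _
      have hpD' : ¬ p ∣ D := by
        intro h3
        apply hpx
        have h4 : p ∣ x ^ 4 := by rw [← hDx]; exact dvd_add h3 h16
        exact hp.dvd_of_dvd_pow h4
      have hc : Nat.Coprime (p * p) D :=
        Nat.Coprime.mul_left ((Nat.Prime.coprime_iff_not_dvd hp).2 hpD')
          ((Nat.Prime.coprime_iff_not_dvd hp).2 hpD')
      have h5 : p * p ∣ j := hc.dvd_of_dvd_mul_right hpD
      have h6 : p * p ≤ j := Nat.le_of_dvd hj1.1 h5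
      have h7 : p = 2 := by
        have := hp.two_le
        nlinarith [hj1.2.1]
      subst h7
      omega
    · have hpx : p ∣ x := by
        rw [hx]
        unfold xx
        exact dvd_add (dvd_x0 j K p hp hpK h2j) (dvd_mul_of_dvd_left (dvd_Q0 K p hp hpK) y)
      have hpj : ¬ p ∣ j := fun h3 => h2j (dvd_mul_of_dvd_right h3 2)
      have hpD' : p ∣ D := by
        rcases (Nat.Prime.dvd_mul hp).1 (hpp.trans hpD) with h3 | h3
        · exact absurd h3 hpj
        · exact h3
      have h4 : p ∣ 16 * j ^ 2 * q ^ 4 := by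
        have h5 : p ∣ x ^ 4 := dvd_pow hpx (by norm_num)
        rw [← hDx] at h5
        exact (Nat.dvd_add_right hpD').1 h5
      rcases (Nat.Prime.dvd_mul hp).1 h4 with h5 | h5
      · rcases (Nat.Prime.dvd_mul hp).1 h5 with h6 | h6
        · apply h2j
          have h7 : p ∣ 2 := by
            have : (16 : ℕ) = 2 ^ 4 := by norm_num
            rw [this] at h6
            exact hp.dvd_of_dvd_pow h6
          exact dvd_mul_of_dvd_left h7 j
        · exact hpj (hp.dvd_of_dvd_pow h6)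
      · have h6 : p ∣ q := hp.dvd_of_dvd_pow h5
        have h7 : p ∣ Q0 K := dvd_Q0 K p hp hpK
        have h8 : p ∣ 1 := by
          have := Nat.dvd_gcd h6 h7
          rwa [Nat.Coprime.gcd_eq_one hcop] at this
        exact hp.one_lt.ne' (Nat.dvd_one.1 h8)
  · push Not at hpK
    refine ⟨p, hp, hpK, ?_⟩
    have hp2 : ¬ p ∣ 2 := fun h3 => by
      have := Nat.le_of_dvd (by norm_num) h3
      omega
    have hpj : ¬ p ∣ j := fun h3 => by
      have := Nat.le_of_dvd hj1.1 h3
      omega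
    have hpD' : p * p ∣ D := by
      have hc : Nat.Coprime (p * p) j :=
        Nat.Coprime.mul_left ((Nat.Prime.coprime_iff_not_dvd hp).2 hpj)
          ((Nat.Prime.coprime_iff_not_dvd hp).2 hpj)
      exact hc.dvd_of_dvd_mul_left hpD
    by_cases hpq : p ∣ q
    · left
      refine ⟨hpq, ?_⟩
      have h4 : p ∣ 16 * j ^ 2 * q ^ 4 := dvd_mul_of_dvd_right (dvd_pow hpq (by norm_num)) _
      have h5 : p ∣ x ^ 4 := by rw [← hDx]; exact dvd_add (hpp.trans hpD') h4
      exact hp.dvd_of_dvd_pow h5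
    · right
      refine ⟨hpq, ?_⟩
      have hpZ : Prime (p : ℤ) := Nat.prime_iff_prime_int.1 hp
      have hDZ : (D : ℤ) = ((x : ℤ) ^ 2 - 4 * j * q ^ 2) * ((x : ℤ) ^ 2 + 4 * j * q ^ 2) := by
        have h5 : ((D + 16 * j ^ 2 * q ^ 4 : ℕ) : ℤ) = ((x ^ 4 : ℕ) : ℤ) := by rw [hDx]
        push_cast at h5
        linear_combination h5
      have hpDZ : (p : ℤ) ^ 2 ∣ ((x : ℤ) ^ 2 - 4 * j * q ^ 2) * ((x : ℤ) ^ 2 + 4 * j * q ^ 2) := by
        rw [← hDZ, sq]
        exact_mod_cast hpD'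
      have hpos : (4 * j * q ^ 2 : ℤ) < (x : ℤ) ^ 2 := by
        have h5 : (16 * j ^ 2 * q ^ 4 : ℤ) < (x : ℤ) ^ 4 := by exact_mod_cast h
        have h6 : (0 : ℤ) ≤ 4 * j * q ^ 2 := by positivity
        nlinarith [sq_nonneg (x : ℤ)]
      have hqpos : (0 : ℤ) < 4 * j * q ^ 2 := by
        have h5 : (0 : ℤ) < j := by exact_mod_cast hj1.1
        have h6 : (0 : ℤ) < q := by exact_mod_cast hq
        positivity
      have hor : (p : ℤ) ^ 2 ∣ ((x : ℤ) ^ 2 - 4 * j * q ^ 2) ∨
          (p : ℤ) ^ 2 ∣ ((x : ℤ) ^ 2 + 4 * j * q ^ 2) := by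
        by_cases hA : (p : ℤ) ∣ ((x : ℤ) ^ 2 - 4 * j * q ^ 2)
        · left
          have hB : ¬ (p : ℤ) ∣ ((x : ℤ) ^ 2 + 4 * j * q ^ 2) := by
            intro hB
            have h7 : (p : ℤ) ∣ ((8 * j * q ^ 2 : ℕ) : ℤ) := by
              exact dvd_cast (dvd_sub hB hA) (by push_cast; ring)
            have h8 : p ∣ 8 * j * q ^ 2 := Int.natCast_dvd_natCast.1 h7
            rcases (Nat.Prime.dvd_mul hp).1 h8 with h9 | h9
            · rcases (Nat.Prime.dvd_mul hp).1 h9 with h10 | h10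
              · apply hp2
                have : (8 : ℕ) = 2 ^ 3 := by norm_num
                rw [this] at h10
                exact hp.dvd_of_dvd_pow h10
              · exact hpj h10
            · exact hpq (hp.dvd_of_dvd_pow h9)
          have hc : IsCoprime ((p : ℤ) ^ 2) ((x : ℤ) ^ 2 + 4 * j * q ^ 2) :=
            IsCoprime.pow_left ((Prime.coprime_iff_not_dvd hpZ).2 hB)
          exact hc.dvd_of_dvd_mul_right hpDZ
        · right
          have hc : IsCoprime ((p : ℤ) ^ 2) ((x : ℤ) ^ 2 - 4 * j * q ^ 2) :=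
            IsCoprime.pow_left ((Prime.coprime_iff_not_dvd hpZ).2 hA)
          exact hc.dvd_of_dvd_mul_left hpDZ
      have hle : (p : ℤ) ^ 2 ≤ (x : ℤ) ^ 2 + 4 * j * q ^ 2 := by
        rcases hor with h5 | h5
        · have := Int.le_of_dvd (by linarith) h5
          linarith
        · exact Int.le_of_dvd (by positivity) h5
      have hp2x : p ≤ 2 * x := by
        have h5 : (p : ℤ) ^ 2 ≤ (2 * (x : ℤ)) ^ 2 := by nlinarith [sq_nonneg (x : ℤ)]
        have h6 : (p : ℤ) ≤ 2 * (x : ℤ) := by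
          have h7 : (0 : ℤ) ≤ 2 * (x : ℤ) := by positivity
          exact le_of_sq_le_sq h5 h7
        exact_mod_cast h6
      refine ⟨hp2x, ?_⟩
      rcases hor with h5 | h5
      · left; exact h5
      · right
        rw [sub_neg_eq_add]
        exact h5

end Pool.Agent.W52.CP.Fac
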